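import Pool.Agent.Q285.FX.X1a

/-!
# Project FX (helper120), job X1 (2): the moments
-/

set_option autoImplicit false

namespace Pool.Agent.Q285.FX

open MeasureTheory Filter Topology Set Asymptotics
open Pool.Agent.Q120.FX

section

variable {q : ℕ} [NeZero q] (χ : DirichletCharacter ℂ q)

/-- the summatory function with powers of the logarithm -/
noncomputable def fj (j : ℕ) (t : ℝ) : ℂ := (Real.log t ^ j) • Sa χ t

lemma fj_li (j : ℕ) : LocallyIntegrableOn (fj χ j) (Ioi 0) := by
  have h1 : LocallyIntegrable (Sa χ) := by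
    refine (locallyIntegrable_const (6 * (q : ℝ))).mono (Sa_meas χ).aestronglyMeasurable ?_
    refine Eventually.of_forall fun u => ?_
    refine (Sa_norm χ u).trans (le_abs_self _)
  refine (h1.locallyIntegrableOn (Ioi 0)).continuousOn_smul isOpen_Ioi.isLocallyClosed ?_
  refine ContinuousOn.pow (Real.continuousOn_log.mono ?_) j
  intro x hx
  exact ne_of_gt hx

lemma fj_top (j : ℕ) {e : ℝ} (he : 0 < e) : fj χ j =O[atTop] fun t : ℝ => t ^ e := by
  have h1 : (fun t : ℝ => Real.log t ^ j) =O[atTop] fun t : ℝ => t ^ e := by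
    have := (isLittleO_log_rpow_rpow_atTop (j : ℝ) he).isBigO
    refine this.congr_left fun x => ?_
    rw [Real.rpow_natCast]
  have h2 : Sa χ =O[atTop] fun _ : ℝ => (1 : ℝ) :=
    IsBigO.of_bound (6 * q) (Eventually.of_forall fun u => by
      rw [norm_one, mul_one]
      exact Sa_norm χ u)
  have h3 := h1.smul h2
  refine h3.congr_right fun x => ?_
  rw [smul_eq_mul, mul_one]

omit [NeZero q] in
lemma fj_bot (j : ℕ) (b : ℝ) : fj χ j =O[𝓝[>] 0] fun t : ℝ => t ^ (-b) := by
  have h1 : fj χ j =ᶠ[𝓝[>] (0 : ℝ)] fun _ => (0 : ℂ) := by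
    have h2 : Iio (1 : ℝ) ∈ 𝓝[>] (0 : ℝ) := mem_nhdsWithin_of_mem_nhds (Iio_mem_nhds zero_lt_one)
    filter_upwards [h2] with u hu
    unfold fj
    rw [Sa_zero χ hu, smul_zero]
  exact h1.trans_isBigO (isBigO_zero _ _)

lemma fj_deriv (j : ℕ) {w : ℂ} (hw : w.re < 0) :
    HasDerivAt (mellin (fj χ j)) (mellin (fj χ (j + 1)) w) w := by
  have h1 := mellin_hasDerivAt_of_isBigO_rpow (a := w.re / 2) (b := w.re - 1) (s := w) (fj_li χ j) (by
    have := fj_top χ j (e := -(w.re / 2)) (by linarith)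
    exact this) (by linarith) (fj_bot χ j _) (by linarith)
  have e : (fun t : ℝ => Real.log t • fj χ j t) = fj χ (j + 1) := by
    funext t
    unfold fj
    rw [smul_smul, ← pow_succ']
  rw [e] at h1
  exact h1.2

lemma iter (j : ℕ) : ∀ w : ℂ, w.re < 0 → iteratedDeriv j (mellin (fj χ 0)) w = mellin (fj χ j) w := by
  induction j with
  | zero =>
    intro w _
    rw [iteratedDeriv_zero]
  | succ n ih =>
    intro w hw
    rw [iteratedDeriv_succ]
    have h1 : iteratedDeriv n (mellin (fj χ 0)) =ᶠ[𝓝 w] mellin (fj χ n) := by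
      have h2 : {z : ℂ | z.re < 0} ∈ 𝓝 w := (isOpen_lt Complex.continuous_re continuous_const).mem_nhds hw
      filter_upwards [h2] with z hz
      exact ih z hz
    rw [h1.deriv_eq]
    exact (fj_deriv χ n hw).deriv

omit [NeZero q] in
lemma mellin_fj (j : ℕ) (s : ℂ) :
    mellin (fj χ j) (-s) = ∫ u in Ioi (1 : ℝ), Sa χ u * (u : ℂ) ^ (-s - 1) * (Real.log u : ℂ) ^ j := by
  rw [← integral_Ici_eq_integral_Ioi]
  unfold mellin
  rw [setIntegral_eq_of_subset_of_forall_sdiff_eq_zero (s := Ici (1 : ℝ)) measurableSet_Ioi]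
  · refine setIntegral_congr_fun measurableSet_Ici fun u _ => ?_
    unfold fj
    simp only [smul_eq_mul, Complex.real_smul]
    push_cast
    ring
  · intro x hx
    have hx1 : (1 : ℝ) ≤ x := hx
    exact lt_of_lt_of_le zero_lt_one hx1
  · intro x hx
    have h1 : x < 1 := by
      by_contra h
      exact hx.2 (not_lt.1 h)
    unfold fj
    rw [Sa_zero χ h1, smul_zero, smul_zero]

/-- the Dirichlet series -/
lemma LS_ac {s : ℂ} (hs : 1 < s.re) :
    LSeries (ac χ) s = (1 - 2 ^ (1 - s)) * DirichletCharacter.LFunction χ s := by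
  have hX : LSeriesSummable (fun n : ℕ => χ (n : ZMod q)) s :=
    LSeriesSummable_of_bounded_of_one_lt_re (m := 1) (fun n _ => DirichletCharacter.norm_le_one χ _) hs
  have hb : LSeriesSummable (fun n : ℕ => if 2 ∣ n then 2 * χ ((n / 2 : ℕ) : ZMod q) else 0) s := by
    refine LSeriesSummable_of_bounded_of_one_lt_re (m := 2) (fun n _ => ?_) hs
    split_ifs
    · have h2 := DirichletCharacter.norm_le_one χ ((n / 2 : ℕ) : ZMod q)
      rw [norm_mul, Complex.norm_ofNat]
      linarith
    · rw [norm_zero]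
      norm_num
  have e : ac χ = (fun n : ℕ => χ (n : ZMod q)) - (fun n : ℕ => if 2 ∣ n then 2 * χ ((n / 2 : ℕ) : ZMod q) else 0) := rfl
  rw [e, LSeries_sub hX hb, DirichletCharacter.LFunction_eq_LSeries χ hs, sub_mul, one_mul]
  congr 1
  unfold LSeries
  rw [← tsum_mul_left]
  have hinj : Function.Injective (fun m : ℕ => 2 * m) := fun a b h => by
    have : 2 * a = 2 * b := h
    omega
  rw [← hinj.tsum_eq (f := fun n => LSeries.term (fun n : ℕ => if 2 ∣ n then 2 * χ ((n / 2 : ℕ) : ZMod q) else 0) s n)]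
  · refine tsum_congr fun m => ?_
    rcases Nat.eq_zero_or_pos m with rfl | hm
    · simp [LSeries.term]
    · rw [LSeries.term_of_ne_zero (by omega), LSeries.term_of_ne_zero (by omega), if_pos (Dvd.intro m rfl),
        Nat.mul_div_cancel_left m (by norm_num)]
      have h2 : ((2 * m : ℕ) : ℂ) ^ s = 2 ^ s * (m : ℂ) ^ s := by
        have := Complex.natCast_mul_natCast_cpow 2 m s
        push_cast at this ⊢
        exact this
      have h3 : (2 : ℂ) ^ (1 - s) = 2 / 2 ^ s := by
        rw [Complex.cpow_sub _ _ two_ne_zero, Complex.cpow_one]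
      rw [h2, h3]
      have h4 : (2 : ℂ) ^ s ≠ 0 := by
        rw [Complex.cpow_ne_zero_iff]
        left
        norm_num
      have h5 : (m : ℂ) ^ s ≠ 0 := by
        rw [Complex.cpow_ne_zero_iff]
        left
        exact_mod_cast hm.ne'
      field_simp
  · intro n hn
    by_contra h
    apply hn
    have h6 : ¬ 2 ∣ n := by
      rintro ⟨m, rfl⟩
      exact h ⟨m, rfl⟩
    show LSeries.term _ s n = 0
    unfold LSeries.term
    beta_reduce
    rw [if_neg h6, zero_div, ite_self]

lemma ident1 {s : ℂ} (hs : 1 < s.re) :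
    s * mellin (fj χ 0) (-s) = (1 - 2 ^ (1 - s)) * DirichletCharacter.LFunction χ s := by
  rw [← LS_ac χ hs, mellin_fj]
  have h1 := LSeries_eq_mul_integral (ac χ) le_rfl (s := s) (by linarith)
    (LSeriesSummable_of_bounded_of_one_lt_re (m := 3) (fun n _ => ac_norm χ n) hs) (by
      refine IsBigO.of_bound (6 * q) (Eventually.of_forall fun N => ?_)
      rw [Real.rpow_zero, norm_one, mul_one]
      exact SA_norm χ N)
  rw [h1]
  congr 1
  refine setIntegral_congr_fun measurableSet_Ioi fun u _ => ?_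
  show Sa χ u * (u : ℂ) ^ (-s - 1) * (Real.log u : ℂ) ^ 0 = Sa χ u * (u : ℂ) ^ (-(s + 1))
  rw [pow_zero, mul_one, neg_add']

/-- the regions -/
lemma an_left {U : Set ℂ} (hU : IsOpen U) (h : ∀ s ∈ U, 0 < s.re) :
    AnalyticOnNhd ℂ (fun s : ℂ => s * mellin (fj χ 0) (-s)) U := by
  refine DifferentiableOn.analyticOnNhd (fun s hs => ?_) hU
  have h1 := (fj_deriv χ 0 (w := -s) (by rw [Complex.neg_re]; have := h s hs; linarith)).differentiableAt
  have h2 : DifferentiableAt ℂ (fun s : ℂ => mellin (fj χ 0) (-s)) s := by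
    have h3 : DifferentiableAt ℂ (fun s : ℂ => -s) s := differentiableAt_id.neg
    exact DifferentiableAt.fun_comp' s h1 h3
  exact (differentiableAt_id.mul h2).differentiableWithinAt

lemma an_right {U : Set ℂ} (hU : IsOpen U) (h : ∀ s ∈ U, s ≠ 1) :
    AnalyticOnNhd ℂ (fun s : ℂ => (1 - 2 ^ (1 - s)) * DirichletCharacter.LFunction χ s) U := by
  refine DifferentiableOn.analyticOnNhd (fun s hs => ?_) hU
  have h1 := DirichletCharacter.differentiableAt_LFunction χ s (Or.inl (h s hs))
  have h2 : DifferentiableAt ℂ (fun s : ℂ => (1 : ℂ) - 2 ^ (1 - s)) s := by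
    refine (differentiableAt_const _).sub ?_
    exact (DifferentiableAt.const_sub differentiableAt_id 1).const_cpow (Or.inl two_ne_zero)
  exact (h2.mul h1).differentiableWithinAt

lemma ident2 {s : ℂ} (hs : 0 < s.re) (hi : 0 < s.im) :
    s * mellin (fj χ 0) (-s) = (1 - 2 ^ (1 - s)) * DirichletCharacter.LFunction χ s := by
  obtain ⟨U, hU⟩ : ∃ U : Set ℂ, U = {s : ℂ | 0 < s.re} ∩ {s : ℂ | 0 < s.im} := ⟨_, rfl⟩
  have hUo : IsOpen U := by
    rw [hU]
    exact (isOpen_lt continuous_const Complex.continuous_re).inter (isOpen_lt continuous_const Complex.continuous_im)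
  have hUc : IsPreconnected U := by
    rw [hU]
    exact ((convex_halfSpace_re_gt 0).inter (convex_halfSpace_im_gt 0)).isPreconnected
  have h1 := an_left χ hUo (fun s hs => by rw [hU] at hs; exact hs.1)
  have h2 := an_right χ hUo (fun s hs => by
    rw [hU] at hs
    rintro rfl
    have := hs.2
    simp at this)
  have hz : (2 + Complex.I : ℂ) ∈ U := by
    rw [hU]
    constructor <;> simp
  have h3 := h1.eqOn_of_preconnected_of_eventuallyEq h2 hUc hz (by
    have h4 : {z : ℂ | 1 < z.re} ∈ 𝓝 (2 + Complex.I : ℂ) :=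
      (isOpen_lt continuous_const Complex.continuous_re).mem_nhds (by simp)
    filter_upwards [h4] with z hz
    exact ident1 χ hz)
  exact h3 (by rw [hU]; exact ⟨hs, hi⟩)

lemma ident3 {s : ℂ} (hs : 0 < s.re) (hi : s.re < 1) :
    s * mellin (fj χ 0) (-s) = (1 - 2 ^ (1 - s)) * DirichletCharacter.LFunction χ s := by
  obtain ⟨U, hU⟩ : ∃ U : Set ℂ, U = {s : ℂ | 0 < s.re} ∩ {s : ℂ | s.re < 1} := ⟨_, rfl⟩
  have hUo : IsOpen U := by
    rw [hU]
    exact (isOpen_lt continuous_const Complex.continuous_re).inter (isOpen_lt Complex.continuous_re continuous_const)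
  have hUc : IsPreconnected U := by
    rw [hU]
    exact ((convex_halfSpace_re_gt 0).inter (convex_halfSpace_re_lt 1)).isPreconnected
  have h1 := an_left χ hUo (fun s hs => by rw [hU] at hs; exact hs.1)
  have h2 := an_right χ hUo (fun s hs => by
    rw [hU] at hs
    rintro rfl
    have := hs.2
    simp at this)
  have hz : (1 / 2 + Complex.I : ℂ) ∈ U := by
    rw [hU]
    constructor
    · simp
    · show (1 / 2 + Complex.I : ℂ).re < 1
      simp
      norm_num
  have h3 := h1.eqOn_of_preconnected_of_eventuallyEq h2 hUc hz (by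
    have h4 : {z : ℂ | 0 < z.re} ∩ {z : ℂ | 0 < z.im} ∈ 𝓝 (1 / 2 + Complex.I : ℂ) := by
      refine ((isOpen_lt continuous_const Complex.continuous_re).inter
        (isOpen_lt continuous_const Complex.continuous_im)).mem_nhds ?_
      constructor <;> simp
    filter_upwards [h4] with z hz
    exact ident2 χ hz.1 hz.2)
  exact h3 (by rw [hU]; exact ⟨hs, hi⟩)

lemma order_B {ρ : ℂ} {m : ℕ} (h0 : 0 < ρ.re) (h1 : ρ.re < 1)
    (hm : (m : ℕ∞) ≤ analyticOrderAt (DirichletCharacter.LFunction χ) ρ) :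
    AnalyticAt ℂ (fun s : ℂ => mellin (fj χ 0) (-s)) ρ ∧
      (m : ℕ∞) ≤ analyticOrderAt (fun s : ℂ => mellin (fj χ 0) (-s)) ρ := by
  have hρ0 : ρ ≠ 0 := by
    rintro rfl
    simp at h0
  have hρ1 : ρ ≠ 1 := by
    rintro rfl
    simp at h1
  have hU : {s : ℂ | 0 < s.re} ∩ {s : ℂ | s.re < 1} ∈ 𝓝 ρ :=
    ((isOpen_lt continuous_const Complex.continuous_re).inter
      (isOpen_lt Complex.continuous_re continuous_const)).mem_nhds ⟨h0, h1⟩
  obtain ⟨G, hG⟩ : ∃ G : ℂ → ℂ, G = fun s => (1 - 2 ^ (1 - s)) / s := ⟨_, rfl⟩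
  have hGa : AnalyticAt ℂ G ρ := by
    have h2 : DifferentiableOn ℂ G {0}ᶜ := by
      intro s hs
      rw [hG]
      refine DifferentiableAt.differentiableWithinAt ?_
      refine DifferentiableAt.div ?_ differentiableAt_id hs
      refine (differentiableAt_const _).sub ?_
      exact (DifferentiableAt.const_sub differentiableAt_id 1).const_cpow (Or.inl two_ne_zero)
    exact h2.analyticAt (isOpen_compl_singleton.mem_nhds hρ0)
  have hLa : AnalyticAt ℂ (DirichletCharacter.LFunction χ) ρ := by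
    have h2 : DifferentiableOn ℂ (DirichletCharacter.LFunction χ) {1}ᶜ := fun s hs =>
      (DirichletCharacter.differentiableAt_LFunction χ s (Or.inl hs)).differentiableWithinAt
    exact h2.analyticAt (isOpen_compl_singleton.mem_nhds hρ1)
  have heq : (fun s : ℂ => mellin (fj χ 0) (-s)) =ᶠ[𝓝 ρ] G * DirichletCharacter.LFunction χ := by
    filter_upwards [hU, isOpen_compl_singleton.mem_nhds hρ0] with s hs hs0
    have h3 := ident3 χ hs.1 hs.2
    have hs0' : s ≠ 0 := hs0
    rw [Pi.mul_apply, hG]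
    show mellin (fj χ 0) (-s) = (1 - 2 ^ (1 - s)) / s * DirichletCharacter.LFunction χ s
    rw [div_mul_eq_mul_div, ← h3, mul_div_cancel_left₀ _ hs0']
  refine ⟨(hGa.mul hLa).congr heq.symm, ?_⟩
  rw [analyticOrderAt_congr heq, analyticOrderAt_mul hGa hLa]
  exact hm.trans le_add_self

end

/-- **X1** -/
theorem t_X1 : J_X1 := by
  intro q _ χ
  refine ⟨⟨6 * q, Sa_norm χ⟩, fun ρ m h0 h1 hm j hj => ?_⟩
  obtain ⟨hA, hO⟩ := order_B χ h0 h1 hm
  have h2 := (natCast_le_analyticOrderAt_iff_iteratedDeriv_eq_zero hA).1 hO j hj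
  rw [iteratedDeriv_comp_neg, iter χ j (-ρ) (by rw [Complex.neg_re]; linarith), mellin_fj] at h2
  rcases smul_eq_zero.1 h2 with h3 | h3
  · exact absurd h3 (pow_ne_zero _ (neg_ne_zero.2 one_ne_zero))
  · exact h3

end Pool.Agent.Q285.FX
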