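import Pool.Agent.Q120.FX.Stm1

/-!
# Project FX (helper120), job X1 (1): the summatory function is bounded
-/

set_option autoImplicit false

namespace Pool.Agent.Q285.FX

open MeasureTheory Filter Topology Set Asymptotics
open Pool.Agent.Q120.FX

section

variable {q : ℕ} [NeZero q] (χ : DirichletCharacter ℂ q)

/-- sums of the character -/
noncomputable def SX (N : ℕ) : ℂ := ∑ n ∈ Finset.Icc 1 N, χ (n : ZMod q)

/-- sums of the coefficients -/
noncomputable def SA (N : ℕ) : ℂ := ∑ n ∈ Finset.Icc 1 N, ac χ n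

omit [NeZero q] in
lemma SX_succ (N : ℕ) : SX χ (N + 1) = SX χ N + χ ((N + 1 : ℕ) : ZMod q) :=
  Finset.sum_Icc_succ_top (by omega) _

omit [NeZero q] in
lemma SA_succ (N : ℕ) : SA χ (N + 1) = SA χ N + ac χ (N + 1) :=
  Finset.sum_Icc_succ_top (by omega) _

omit [NeZero q] in
lemma chi_per (n : ℕ) : χ ((n + q : ℕ) : ZMod q) = χ (n : ZMod q) := by
  rw [Nat.cast_add, ZMod.natCast_self, add_zero]

omit [NeZero q] in
lemma ac_per (n : ℕ) : ac χ (n + 2 * q) = ac χ n := by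
  unfold ac
  have h1 : ((n + 2 * q : ℕ) : ZMod q) = (n : ZMod q) := by
    rw [Nat.cast_add, Nat.cast_mul, ZMod.natCast_self, mul_zero, add_zero]
  have h2 : (n + 2 * q) / 2 = n / 2 + q := by omega
  rw [h1, h2, chi_per]
  by_cases h : 2 ∣ n
  · rw [if_pos h, if_pos (by omega)]
  · rw [if_neg h, if_neg (by omega)]

omit [NeZero q] in
lemma SX_add (N : ℕ) : SX χ (N + q) = SX χ N + SX χ q := by
  induction N with
  | zero => simp [SX]
  | succ n ih =>
    rw [show n + 1 + q = (n + q) + 1 by ring, SX_succ, ih, SX_succ, show n + q + 1 = (n + 1) + q by ring, chi_per]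
    ring

omit [NeZero q] in
lemma SA_two (N : ℕ) : SA χ (2 * N) = SX χ (2 * N) - 2 * SX χ N := by
  induction N with
  | zero => simp [SA, SX]
  | succ n ih =>
    have e1 : ac χ (2 * n + 1) = χ ((2 * n + 1 : ℕ) : ZMod q) := by
      unfold ac
      rw [if_neg (by omega), sub_zero]
    have e2 : ac χ (2 * n + 1 + 1) = χ ((2 * n + 1 + 1 : ℕ) : ZMod q) - 2 * χ ((n + 1 : ℕ) : ZMod q) := by
      unfold ac
      rw [if_pos (by omega), show (2 * n + 1 + 1) / 2 = n + 1 by omega]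
    rw [show 2 * (n + 1) = 2 * n + 1 + 1 by ring, SA_succ, SA_succ, ih, SX_succ, SX_succ, SX_succ, e1, e2]
    ring

omit [NeZero q] in
lemma SA_period : SA χ (2 * q) = 0 := by
  rw [SA_two, two_mul q, SX_add]
  ring

omit [NeZero q] in
lemma SA_add (N : ℕ) : SA χ (N + 2 * q) = SA χ N := by
  induction N with
  | zero =>
    rw [zero_add, SA_period]
    simp [SA]
  | succ n ih =>
    rw [show n + 1 + 2 * q = (n + 2 * q) + 1 by ring, SA_succ, ih, SA_succ,
      show n + 2 * q + 1 = (n + 1) + 2 * q by ring, ac_per]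

omit [NeZero q] in
lemma SA_mul_add (k r : ℕ) : SA χ (r + 2 * q * k) = SA χ r := by
  induction k with
  | zero => rw [mul_zero, add_zero]
  | succ n ih => rw [show r + 2 * q * (n + 1) = (r + 2 * q * n) + 2 * q by ring, SA_add, ih]

omit [NeZero q] in
lemma SA_mod (N : ℕ) : SA χ N = SA χ (N % (2 * q)) := by
  have h := SA_mul_add χ (N / (2 * q)) (N % (2 * q))
  rwa [Nat.mod_add_div] at h

omit [NeZero q] in
lemma ac_norm (n : ℕ) : ‖ac χ n‖ ≤ 3 := by
  unfold ac
  have h1 := DirichletCharacter.norm_le_one χ (n : ZMod q)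
  split_ifs
  · refine (norm_sub_le _ _).trans ?_
    have h2 := DirichletCharacter.norm_le_one χ ((n / 2 : ℕ) : ZMod q)
    rw [norm_mul, Complex.norm_ofNat]
    linarith
  · rw [sub_zero]
    linarith

lemma SA_norm (N : ℕ) : ‖SA χ N‖ ≤ 6 * q := by
  rw [SA_mod]
  unfold SA
  refine (norm_sum_le _ _).trans ?_
  refine (Finset.sum_le_card_nsmul _ _ 3 (fun n _ => ac_norm χ n)).trans ?_
  rw [Nat.card_Icc, nsmul_eq_mul, Nat.add_sub_cancel]
  have h1 : N % (2 * q) ≤ 2 * q := (Nat.mod_lt _ (by have := NeZero.pos q; omega)).le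
  have h2 : ((N % (2 * q) : ℕ) : ℝ) ≤ 2 * q := by exact_mod_cast h1
  linarith

omit [NeZero q] in
lemma Sa_eq (u : ℝ) : Sa χ u = SA χ ⌊u⌋₊ := rfl

lemma Sa_norm (u : ℝ) : ‖Sa χ u‖ ≤ 6 * q := by
  rw [Sa_eq]
  exact SA_norm χ _

omit [NeZero q] in
lemma Sa_zero {u : ℝ} (hu : u < 1) : Sa χ u = 0 := by
  rw [Sa_eq]
  have h : ⌊u⌋₊ = 0 := Nat.floor_eq_zero.2 hu
  rw [h]
  simp [SA]

omit [NeZero q] in
lemma Sa_meas : Measurable (Sa χ) := by
  have h : Sa χ = (SA χ) ∘ (fun u : ℝ => ⌊u⌋₊) := rfl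
  rw [h]
  exact measurable_from_nat.comp Nat.measurable_floor

end

end Pool.Agent.Q285.FX
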